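import Pool.Agent.helper19.FR.Spec

/-!
# fr:KBD: bounds for the correlation kernel
-/

set_option autoImplicit false

namespace Pool.Agent.FR

open Finset Real Pool.Agent.AT Pool.Agent.OM Pool.Agent.helper85.FC

theorem KBD_count {A : Type} [Fintype A] [DecidableEq A] (X : ℕ) (a b : A) (hab : a ≠ b)
    (x y : Fin X) :
    (univ.filter fun ξ : A → Fin X => ξ a = x ∧ ξ b = y).card * X ^ 2 ≤
      Fintype.card (A → Fin X) := by
  have h1 : ((univ.filter fun ξ : A → Fin X => ξ a = x ∧ ξ b = y) ×ˢ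
      (univ : Finset (Fin X × Fin X))).card ≤ (univ : Finset (A → Fin X)).card := by
    refine Finset.card_le_card_of_injOn
      (fun z => Function.update (Function.update z.1 a z.2.1) b z.2.2) ?_ ?_
    · intro z _
      simp
    · intro z hz w hw hzw
      rw [Finset.mem_coe, Finset.mem_product, Finset.mem_filter] at hz hw
      obtain ⟨⟨_, hz1, hz2⟩, _⟩ := hz
      obtain ⟨⟨_, hw1, hw2⟩, _⟩ := hw
      simp only at hzw
      have hb : z.2.2 = w.2.2 := by
        have := congrFun hzw b
        simpa using this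
      have ha : z.2.1 = w.2.1 := by
        have := congrFun hzw a
        simpa [Function.update_of_ne hab] using this
      have hf : z.1 = w.1 := by
        funext c
        by_cases hcb : c = b
        · rw [hcb, hz2, hw2]
        · by_cases hca : c = a
          · rw [hca, hz1, hw1]
          · have := congrFun hzw c
            simpa [Function.update_of_ne hcb, Function.update_of_ne hca] using this
      exact Prod.ext hf (Prod.ext ha hb)
  rw [Finset.card_product, Finset.card_univ, Fintype.card_prod, Fintype.card_fin,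
    Finset.card_univ] at h1
  calc (univ.filter fun ξ : A → Fin X => ξ a = x ∧ ξ b = y).card * X ^ 2
      = (univ.filter fun ξ : A → Fin X => ξ a = x ∧ ξ b = y).card * (X * X) := by ring
    _ ≤ _ := h1

theorem KBD : KBD_stmt := by
  intro ι _ _ H X j i hH hX hj x y
  have hterm : ∀ (ξ : ι × Fin H → Fin X) (m m' : Fin H),
      0 ≤ (if m ≠ m' ∧ ξ (i, m) = x ∧ ξ (i, m') = y then j ξ (i, m) * j ξ (i, m') else 0) := by
    intro ξ m m'
    split_ifs
    · exact mul_nonneg (hj ξ _).1 (hj ξ _).1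
    · exact le_refl _
  have hterm1 : ∀ (ξ : ι × Fin H → Fin X) (m m' : Fin H),
      (if m ≠ m' ∧ ξ (i, m) = x ∧ ξ (i, m') = y then j ξ (i, m) * j ξ (i, m') else 0) ≤
      (if m ≠ m' ∧ ξ (i, m) = x ∧ ξ (i, m') = y then (1 : ℝ) else 0) := by
    intro ξ m m'
    split_ifs
    · exact mul_le_one₀ (hj ξ _).2 (hj ξ _).1 (hj ξ _).2
    · exact le_refl _
  have hHpos : (0 : ℝ) < H := by exact_mod_cast hH
  have hXpos : (0 : ℝ) < X := by exact_mod_cast hX
  refine ⟨?_, ?_, ?_⟩
  · unfold ker mean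
    refine mul_nonneg (by positivity) (div_nonneg (Finset.sum_nonneg fun ξ _ => ?_) (by positivity))
    refine div_nonneg (Finset.sum_nonneg fun m _ => ?_) (by positivity)
    exact div_nonneg (Finset.sum_nonneg fun m' _ => hterm ξ m m') (by positivity)
  · have : Nonempty (Fin X) := ⟨x⟩
    have hP : (0 : ℝ) < (Fintype.card (ι × Fin H → Fin X) : ℝ) := by
      exact_mod_cast Fintype.card_pos
    have hcnt : ∀ m m' : Fin H, ∑ ξ : ι × Fin H → Fin X,
        (if m ≠ m' ∧ ξ (i, m) = x ∧ ξ (i, m') = y then (1 : ℝ) else 0) ≤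
        (Fintype.card (ι × Fin H → Fin X) : ℝ) / (X : ℝ) ^ 2 := by
      intro m m'
      by_cases hm : m = m'
      · simp [hm]
        positivity
      · have h1 := KBD_count X (i, m) (i, m') (by
          intro h
          exact hm (Prod.ext_iff.1 h).2) x y
        rw [le_div_iff₀ (by positivity)]
        have h2 : ∑ ξ : ι × Fin H → Fin X,
            (if m ≠ m' ∧ ξ (i, m) = x ∧ ξ (i, m') = y then (1 : ℝ) else 0) =
            ((univ.filter fun ξ : ι × Fin H → Fin X => ξ (i, m) = x ∧ ξ (i, m') = y).card : ℝ) := by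
          rw [Finset.card_filter]
          push_cast
          refine Finset.sum_congr rfl fun ξ _ => ?_
          simp [hm]
        rw [h2]
        exact_mod_cast h1
    have hsum : ∑ ξ : ι × Fin H → Fin X, ∑ m : Fin H, ∑ m' : Fin H,
        (if m ≠ m' ∧ ξ (i, m) = x ∧ ξ (i, m') = y then j ξ (i, m) * j ξ (i, m') else 0) ≤
        (H : ℝ) * (H * ((Fintype.card (ι × Fin H → Fin X) : ℝ) / (X : ℝ) ^ 2)) := by
      calc ∑ ξ : ι × Fin H → Fin X, ∑ m : Fin H, ∑ m' : Fin H,
          (if m ≠ m' ∧ ξ (i, m) = x ∧ ξ (i, m') = y then j ξ (i, m) * j ξ (i, m') else 0)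
          ≤ ∑ ξ : ι × Fin H → Fin X, ∑ m : Fin H, ∑ m' : Fin H,
          (if m ≠ m' ∧ ξ (i, m) = x ∧ ξ (i, m') = y then (1 : ℝ) else 0) :=
            Finset.sum_le_sum fun ξ _ => Finset.sum_le_sum fun m _ =>
              Finset.sum_le_sum fun m' _ => hterm1 ξ m m'
        _ = ∑ m : Fin H, ∑ m' : Fin H, ∑ ξ : ι × Fin H → Fin X,
          (if m ≠ m' ∧ ξ (i, m) = x ∧ ξ (i, m') = y then (1 : ℝ) else 0) := by
            rw [Finset.sum_comm]
            exact Finset.sum_congr rfl fun m _ => Finset.sum_comm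
        _ ≤ ∑ _m : Fin H, ∑ _m' : Fin H,
          ((Fintype.card (ι × Fin H → Fin X) : ℝ) / (X : ℝ) ^ 2) :=
            Finset.sum_le_sum fun m _ => Finset.sum_le_sum fun m' _ => hcnt m m'
        _ = _ := by
            simp only [Finset.sum_const, Finset.card_univ, Fintype.card_fin, nsmul_eq_mul]
    unfold ker mean
    simp_rw [← Finset.sum_div]
    rw [Fintype.card_fin]
    rw [mul_div_assoc', div_le_one hP]
    have h3 : ∀ S : ℝ, (X : ℝ) ^ 2 * (S / H / H) = (X : ℝ) ^ 2 * S / ((H : ℝ) * H) := by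
      intro S
      field_simp
    rw [h3, div_le_iff₀ (by positivity)]
    calc (X : ℝ) ^ 2 * _ ≤ (X : ℝ) ^ 2 *
          ((H : ℝ) * (H * ((Fintype.card (ι × Fin H → Fin X) : ℝ) / (X : ℝ) ^ 2))) :=
          mul_le_mul_of_nonneg_left hsum (by positivity)
      _ = _ := by
          field_simp
  · unfold ker mean
    refine congrArg (fun r => (X : ℝ) ^ 2 * (r / _)) (Finset.sum_congr rfl fun ξ _ => ?_)
    refine congrArg (fun r => r / _) ?_
    simp_rw [← Finset.sum_div]
    refine congrArg (fun r => r / _) ?_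
    rw [Finset.sum_comm]
    refine Finset.sum_congr rfl fun m _ => Finset.sum_congr rfl fun m' _ => ?_
    by_cases h : m ≠ m' ∧ ξ (i, m) = y ∧ ξ (i, m') = x
    · rw [if_pos h, if_pos ⟨h.1.symm, h.2.2, h.2.1⟩, mul_comm]
    · rw [if_neg h, if_neg fun h' => h ⟨h'.1.symm, h'.2.2, h'.2.1⟩]

end Pool.Agent.FR
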